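import Pool.Agent.U880.CTA.Ar

/-!
Homogeneous sets of primes, pairs.
-/

set_option autoImplicit false
set_option linter.all false
set_option maxHeartbeats 1000000

open scoped Classical

namespace Pool.Agent.U880.CTA

open Finset
open Pool.Agent.Y703.CX (lam LamP)
open Pool.Agent.Y703.CT (Cls NoSplit Base)
open Q283.Q3N (Gx fe fe_ne gx_of_nosplit nosplit_of_gx lam_prodp cls_mul Adm lam_pow)

/-- admissible primes -/
def Adb (D p : ℕ) : Prop := p.Prime ∧ p % 3 = 1 ∧ ¬ p ∣ D ∧ lam p D ≠ 0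

/-- the colour of a prime -/
noncomputable def kap (D p : ℕ) :
    ZMod 9 × (D.primeFactors → ZMod 3) × (D.primeFactors → ZMod 3) :=
  ((p : ZMod 9), fun d => lam d p, fun d => lam p D * lam p d)

theorem hmg_of {D : ℕ} {T : Set ℕ} (h : ∀ p ∈ T, Adb D p)
    {y : ZMod 9 × (D.primeFactors → ZMod 3) × (D.primeFactors → ZMod 3)}
    (h1 : ∀ p ∈ T, kap D p = y) {z : ZMod 3 × ZMod 3}
    (h2 : ∀ p ∈ T, ∀ r ∈ T, p < r → (lam p D * lam p r, lam r D * lam r p) = z) :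
    Hmg D T z.1 z.2 where
  prime p hp := (h p hp).1
  one p hp := (h p hp).2.1
  ndvd p hp := (h p hp).2.2.1
  ne p hp := (h p hp).2.2.2
  nine p hp r hr := by
    have := congrArg Prod.fst ((h1 p hp).trans (h1 r hr).symm)
    exact (ZMod.natCast_eq_natCast_iff' p r 9).1 this
  inn d hd _ p hp r hr := by
    have := congrArg (fun v => v.2.1 ⟨d, hd⟩) ((h1 p hp).trans (h1 r hr).symm)
    exact this
  out d hd p hp r hr := by
    have := congrArg (fun v => v.2.2 ⟨d, hd⟩) ((h1 p hp).trans (h1 r hr).symm)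
    exact this
  pr p hp r hr hpr := by
    have := h2 p hp r hr hpr
    rw [← this]
    exact ⟨rfl, rfl⟩

theorem hmg_inf {D : ℕ} {S : Set ℕ} (hS : S.Infinite) (h : ∀ p ∈ S, Adb D p) :
    ∃ T ⊆ S, T.Infinite ∧ ∃ α α', Hmg D T α α' := by
  obtain ⟨T, hTS, hT, ⟨y, hy⟩, z, hz⟩ := ram_inf (kap D)
    (fun p r => (lam p D * lam p r, lam r D * lam r p)) S hS
  exact ⟨T, hTS, hT, z.1, z.2, hmg_of (fun p hp => h p (hTS hp)) hy hz⟩

theorem hmg_fin {D : ℕ} (S : Finset ℕ) (h : ∀ p ∈ S, Adb D p) (k : ℕ)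
    (hS : 9 ^ (9 * k + D.primeFactors.card + 1) ≤ S.card) :
    ∃ A ⊆ S, A.card = k ∧ ∃ α α', Hmg D (A : Set ℕ) α α' := by
  have hF : Fintype.card (ZMod 3 × ZMod 3) = 9 := by
    rw [Fintype.card_prod, ZMod.card]
  have hC : Fintype.card (ZMod 9 × (D.primeFactors → ZMod 3) × (D.primeFactors → ZMod 3)) =
      9 ^ (D.primeFactors.card + 1) := by
    rw [Fintype.card_prod, Fintype.card_prod, ZMod.card, Fintype.card_fun, Fintype.card_coe,
      ZMod.card, ← mul_pow, pow_succ]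
    ring
  obtain ⟨A, hAS, hAk, ⟨y, hy⟩, z, hz⟩ := ram_fin (F := ZMod 3 × ZMod 3) (by rw [hF]; norm_num)
    (kap D) (fun p r => (lam p D * lam p r, lam r D * lam r p)) S k (by
      rw [hF, hC, ← pow_add]
      refine le_trans (le_of_eq ?_) hS
      congr 1
      ring)
  exact ⟨A, hAS, hAk, z.1, z.2, hmg_of (fun p hp => h p (hAS (mem_coe.1 hp)))
    (fun p hp => hy p (mem_coe.1 hp)) (fun p hp r hr hpr => hz p (mem_coe.1 hp) r (mem_coe.1 hr) hpr)⟩

theorem Hmg.mono {D : ℕ} {T T' : Set ℕ} {α α' : ZMod 3} (h : Hmg D T α α') (h' : T' ⊆ T) :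
    Hmg D T' α α' where
  prime p hp := h.prime p (h' hp)
  one p hp := h.one p (h' hp)
  ndvd p hp := h.ndvd p (h' hp)
  ne p hp := h.ne p (h' hp)
  nine p hp r hr := h.nine p (h' hp) r (h' hr)
  inn d hd hd1 p hp r hr := h.inn d hd hd1 p (h' hp) r (h' hr)
  out d hd p hp r hr := h.out d hd p (h' hp) r (h' hr)
  pr p hp r hr := h.pr p (h' hp) r (h' hr)

theorem sigma_ex (ε : ZMod 3) : ∃ σ : ℕ, (σ = 1 ∨ σ = 2) ∧ ε * (σ : ZMod 3) ≠ 1 := by
  have h : ∀ ε : ZMod 3, ε * ((1 : ℕ) : ZMod 3) ≠ 1 ∨ ε * ((2 : ℕ) : ZMod 3) ≠ 1 := by decide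
  rcases h ε with h | h
  · exact ⟨1, Or.inl rfl, h⟩
  · exact ⟨2, Or.inr rfl, h⟩

/-- the sequence form -/
theorem seq_good {D : ℕ} (hC : Cls D) (hN : NoSplit D) {T : Set ℕ} {α α' : ZMod 3}
    (hT : Hmg D T α α') {σ : ℕ} (hσ : σ = 1 ∨ σ = 2) (h6 : (α - α') * (σ : ZMod 3) ≠ 1) (m : ℕ)
    {a : ℕ → ℕ} (hmono : ∀ i j, i < j → j < 2 * m → a i < a j) (ha : ∀ i < 2 * m, a i ∈ T) :
    Cls (D * ∏ i ∈ range m, (a (2 * i) ^ σ * a (2 * i + 1) ^ (3 - σ))) ∧
      NoSplit (D * ∏ i ∈ range m, (a (2 * i) ^ σ * a (2 * i + 1) ^ (3 - σ))) := by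
  refine good_ext hC hN hmono (hT.mono ?_) hσ h6
  rintro p ⟨i, hi, rfl⟩
  exact ha i hi

/-- the form for finite sets -/
theorem set_good {D : ℕ} (hC : Cls D) (hN : NoSplit D) {A : Finset ℕ} {α α' : ZMod 3}
    (hT : Hmg D (A : Set ℕ) α α') {m : ℕ} (hA : A.card = 2 * m) :
    ∃ x : ℕ → ℕ, (∀ p ∈ A, x p = 1 ∨ x p = 2) ∧
      Cls (D * ∏ p ∈ A, p ^ x p) ∧ NoSplit (D * ∏ p ∈ A, p ^ x p) := by
  obtain ⟨σ, hσ, h6⟩ := sigma_ex (α - α')
  let a : ℕ → ℕ := fun i => if h : i < 2 * m then A.orderEmbOfFin hA ⟨i, h⟩ else 0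
  have ha : ∀ i (h : i < 2 * m), a i = A.orderEmbOfFin hA ⟨i, h⟩ := fun i h => dif_pos h
  have hmono : ∀ i j, i < j → j < 2 * m → a i < a j := by
    intro i j hij hj
    rw [ha i (hij.trans hj), ha j hj]
    exact (A.orderEmbOfFin hA).strictMono (show (⟨i, hij.trans hj⟩ : Fin (2 * m)) < ⟨j, hj⟩ from hij)
  have hmem : ∀ i < 2 * m, a i ∈ A := by
    intro i hi
    rw [ha i hi]
    exact orderEmbOfFin_mem A hA _
  have hinj : ∀ i < 2 * m, ∀ j < 2 * m, a i = a j → i = j := by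
    intro i hi j hj hij
    rcases lt_trichotomy i j with h | h | h
    · exact absurd hij (hmono i j h hj).ne
    · exact h
    · exact absurd hij.symm (hmono j i h hi).ne
  have himg : (range (2 * m)).image a = A := by
    refine eq_of_subset_of_card_le ?_ ?_
    · intro p hp
      obtain ⟨i, hi, rfl⟩ := mem_image.1 hp
      exact hmem i (mem_range.1 hi)
    · rw [hA, card_image_of_injOn, card_range]
      intro i hi j hj hij
      exact hinj i (mem_range.1 hi) j (mem_range.1 hj) hij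
  obtain ⟨x, hx, hprod⟩ := exists_x hinj σ
  have h := seq_good hC hN hT hσ h6 m hmono (fun i hi => mem_coe.2 (hmem i hi))
  rw [hprod, himg] at h
  refine ⟨x, fun p hp => ?_, h⟩
  rw [← himg] at hp
  obtain ⟨i, hi, rfl⟩ := mem_image.1 hp
  rw [hx i (mem_range.1 hi)]
  exact ex_or hσ i

/-- **finite sets** -/
theorem fin_good {D : ℕ} (hC : Cls D) (hN : NoSplit D) (S : Finset ℕ) (h : ∀ p ∈ S, Adb D p)
    (m : ℕ) (hS : 9 ^ (18 * m + D.primeFactors.card + 1) ≤ S.card) (Q : Finset ℕ → Prop)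
    (hQ : ∀ A ⊆ S, ∀ x : ℕ → ℕ, (∀ p ∈ A, x p = 1 ∨ x p = 2) → Cls (D * ∏ p ∈ A, p ^ x p) →
      NoSplit (D * ∏ p ∈ A, p ^ x p) → Q A) :
    S.card.choose (2 * m) ≤ (9 ^ (18 * m + D.primeFactors.card + 1)).choose (2 * m) *
      ((S.powersetCard (2 * m)).filter Q).card := by
  refine count S (2 * m) _ Q ?_ hS ?_
  · calc 2 * m ≤ 9 ^ (2 * m) := (Nat.lt_pow_self (by norm_num)).le
      _ ≤ _ := Nat.pow_le_pow_right (by norm_num) (by omega)
  · intro B hB hBN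
    obtain ⟨A, hA, hAk, α, α', hH⟩ := hmg_fin B (fun p hp => h p (hB hp)) (2 * m) (by
      rw [hBN]
      refine le_of_eq ?_
      congr 1
      ring)
    obtain ⟨x, hx, h1, h2⟩ := set_good hC hN hH hAk
    exact ⟨A, hA, hAk, hQ A (hA.trans hB) x hx h1 h2⟩

/-- two primes of the same type -/
theorem pair_good {D : ℕ} (hC : Cls D) (hN : NoSplit D) {p r : ℕ} (hp : Adb D p) (hr : Adb D r)
    (hne : p ≠ r) (h9 : p % 9 = r % 9)
    (hin : ∀ d ∈ D.primeFactors, d % 3 = 1 → lam d p = lam d r)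
    (hout : ∀ d ∈ D.primeFactors, lam p D * lam p d = lam r D * lam r d) :
    (Cls (D * (p * r ^ 2)) ∧ NoSplit (D * (p * r ^ 2))) ∨
      (Cls (D * (p ^ 2 * r)) ∧ NoSplit (D * (p ^ 2 * r))) := by
  wlog hpr : p < r generalizing p r
  · have := this hr hp hne.symm h9.symm (fun d hd h1 => (hin d hd h1).symm)
      (fun d hd => (hout d hd).symm) (lt_of_le_of_ne (not_lt.1 hpr) hne.symm)
    rw [mul_comm (p ^ 2) r, mul_comm p (r ^ 2)]
    exact this.symm
  have hH : Hmg D ({p, r} : Set ℕ) (lam p D * lam p r) (lam r D * lam r p) := by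
    have hcase : ∀ (P : ℕ → ℕ → Prop), (∀ a, P a a) → (P p r) → (P r p) →
        ∀ a ∈ ({p, r} : Set ℕ), ∀ b ∈ ({p, r} : Set ℕ), P a b := by
      rintro P h0 h1 h2 a (rfl | rfl) b (rfl | rfl)
      · exact h0 _
      · exact h1
      · exact h2
      · exact h0 _
    refine ⟨?_, ?_, ?_, ?_, ?_, ?_, ?_, ?_⟩
    · rintro a (rfl | rfl)
      · exact hp.1
      · exact hr.1
    · rintro a (rfl | rfl)
      · exact hp.2.1
      · exact hr.2.1
    · rintro a (rfl | rfl)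
      · exact hp.2.2.1
      · exact hr.2.2.1
    · rintro a (rfl | rfl)
      · exact hp.2.2.2
      · exact hr.2.2.2
    · exact hcase _ (fun _ => rfl) h9 h9.symm
    · intro d hd h1
      exact hcase _ (fun _ => rfl) (hin d hd h1) (hin d hd h1).symm
    · intro d hd
      exact hcase _ (fun _ => rfl) (hout d hd) (hout d hd).symm
    · rintro a (rfl | rfl) b (rfl | rfl) hab
      · exact absurd hab (lt_irrefl _)
      · exact ⟨rfl, rfl⟩
      · exact absurd hab (not_lt.2 hpr.le)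
      · exact absurd hab (lt_irrefl _)
  obtain ⟨σ, hσ, h6⟩ := sigma_ex (lam p D * lam p r - lam r D * lam r p)
  have h := seq_good hC hN hH hσ h6 1 (a := fun i => if i = 0 then p else r) (by
    intro i j hij hj
    have hi : i = 0 := by omega
    have hj' : j = 1 := by omega
    subst hi
    subst hj'
    simpa using hpr) (by
    intro i hi
    by_cases h0 : i = 0
    · rw [if_pos h0]
      exact Set.mem_insert _ _
    · rw [if_neg h0]
      exact Set.mem_insert_of_mem _ rfl)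
  rw [prod_range_one] at h
  simp only [mul_zero, if_true, zero_add, one_ne_zero, if_false] at h
  rcases hσ with h1 | h1 <;> subst h1
  · left
    simpa using h
  · right
    simpa using h

theorem out_of {D p r d : ℕ} (hp : Adb D p) (hr : Adb D r) (hd : d ∈ D.primeFactors)
    (h : ∀ j < 3, lam p (d * D ^ j) = 0 ↔ lam r (d * D ^ j) = 0) :
    lam p D * lam p d = lam r D * lam r d := by
  have hdD := Nat.dvd_of_mem_primeFactors hd
  have e : ∀ {q : ℕ}, Adb D q → ∀ j : ℕ, lam q (d * D ^ j) = lam q d + j * lam q D := by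
    intro q hq j
    have h1 : ¬ q ∣ d := fun h => hq.2.2.1 (h.trans hdD)
    have h2 : ¬ q ∣ D ^ j := fun h => hq.2.2.1 (hq.1.dvd_of_dvd_pow h)
    rw [LP.mul q _ _ hq.1 hq.2.1 h1 h2, lam_pow LP hq.1 hq.2.1 hq.2.2.1]
  have key : ∀ x y u v : ZMod 3, x ≠ 0 → y ≠ 0 →
      ((u + (0 : ℕ) * x = 0) ↔ (v + (0 : ℕ) * y = 0)) → ((u + (1 : ℕ) * x = 0) ↔ (v + (1 : ℕ) * y = 0)) →
      ((u + (2 : ℕ) * x = 0) ↔ (v + (2 : ℕ) * y = 0)) → x * u = y * v := by decide
  refine key _ _ _ _ hp.2.2.2 hr.2.2.2 ?_ ?_ ?_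
  · rw [← e hp 0, ← e hr 0]
    exact h 0 (by norm_num)
  · rw [← e hp 1, ← e hr 1]
    exact h 1 (by norm_num)
  · rw [← e hp 2, ← e hr 2]
    exact h 2 (by norm_num)

end Pool.Agent.U880.CTA
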