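import Mathlib

/-!
Systems of linear equations over the field with three elements attached to a (non symmetric)
matrix of symbols: extension by an ordered homogeneous set with alternating weights.
-/

set_option autoImplicit false
set_option linter.all false

namespace Pool.Agent.U880.CTA

open Finset

/-- all solutions of the system are constant on the support of the weights -/
def GX (l : ℕ → ℕ → ZMod 3) (ρ : ℕ → Prop) (e : ℕ → ZMod 3) (T : Finset ℕ) : Prop :=
  ∀ c : ℕ → ZMod 3, (∀ p ∈ T, ρ p → e p ≠ 0 → ∑ q ∈ T, (c q - c p) * (e q * l p q) = 0) →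
    ∀ p ∈ T, ∀ q ∈ T, e p ≠ 0 → e q ≠ 0 → c p = c q

/-- the alternating weights -/
def alt (τ : ZMod 3) (i : ℕ) : ZMod 3 := if Even i then τ else -τ

theorem alt_sum (τ : ZMod 3) (i : ℕ) :
    ∑ j ∈ range i, alt τ j = if Even i then 0 else τ := by
  induction i with
  | zero => simp
  | succ i ih =>
    rw [sum_range_succ, ih]
    unfold alt
    by_cases h : Even i
    · rw [if_pos h, if_pos h, if_neg (by rwa [Nat.even_add_one, not_not]), zero_add]
    · rw [if_neg h, if_neg h, if_pos (Nat.even_add_one.2 h), add_neg_cancel]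

/-- **Extension** of a system with constant solutions by an ordered homogeneous set with alternating
weights. -/
theorem ext_alt {l : ℕ → ℕ → ZMod 3} {ρ : ℕ → Prop} {e : ℕ → ZMod 3} {P : Finset ℕ} {m : ℕ}
    {a : ℕ → ℕ} (hinj : ∀ i < 2 * m, ∀ j < 2 * m, a i = a j → i = j)
    (haP : ∀ i < 2 * m, a i ∉ P) (hρ : ∀ i < 2 * m, ρ (a i))
    {τ α α' : ZMod 3} {β γ s : ℕ → ZMod 3} (hτ : τ ≠ 0)
    (hv : ∀ i < 2 * m, e (a i) = alt τ i)
    (h2 : ∀ d ∈ P, ρ d → ∀ i < 2 * m, l d (a i) = β d)
    (h3 : ∀ d ∈ P, ∀ i < 2 * m, s i * l (a i) d = γ d)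
    (h4 : ∀ i j, i < j → j < 2 * m → s i * l (a i) (a j) = α ∧ s j * l (a j) (a i) = α')
    (h5 : ∑ d ∈ P, e d * γ d = 1) (h6 : (α - α') * τ ≠ 1) (hP : GX l ρ e P) :
    GX l ρ e (P ∪ (range (2 * m)).image a) := by
  have he : ∀ i < 2 * m, e (a i) ≠ 0 := by
    intro i hi
    rw [hv i hi]
    unfold alt
    split_ifs
    · exact hτ
    · exact neg_ne_zero.2 hτ
  have hdisj : Disjoint P ((range (2 * m)).image a) := by
    rw [disjoint_right]
    intro x hx
    obtain ⟨i, hi, rfl⟩ := mem_image.1 hx
    exact haP i (mem_range.1 hi)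
  have hinjr : Set.InjOn a (range (2 * m) : Finset ℕ) := by
    intro i hi j hj hij
    exact hinj i (mem_range.1 hi) j (mem_range.1 hj) hij
  have hsplit : ∀ f : ℕ → ZMod 3, ∑ q ∈ P ∪ (range (2 * m)).image a, f q =
      ∑ q ∈ P, f q + ∑ j ∈ range (2 * m), f (a j) := by
    intro f
    rw [sum_union hdisj, sum_image hinjr]
  intro c hc
  set g : ZMod 3 := ∑ d ∈ P, e d * γ d * c d with hg
  -- the equations at the new elements
  have E : ∀ i < 2 * m, g - c (a i) +
      ∑ j ∈ range (2 * m), (c (a j) - c (a i)) * alt τ j * (if j < i then α' else α) = 0 := by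
    intro i hi
    have h := hc (a i) (mem_union_right _ (mem_image_of_mem _ (mem_range.2 hi))) (hρ i hi) (he i hi)
    rw [hsplit] at h
    have h' := congrArg (fun x => s i * x) h
    simp only [mul_add, mul_zero, mul_sum] at h'
    have e1 : ∑ q ∈ P, s i * ((c q - c (a i)) * (e q * l (a i) q)) = g - c (a i) := by
      have : ∑ q ∈ P, s i * ((c q - c (a i)) * (e q * l (a i) q)) =
          ∑ q ∈ P, (e q * γ q * c q - e q * γ q * c (a i)) := by
        refine sum_congr rfl fun q hq => ?_
        rw [← h3 q hq i hi]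
        ring
      rw [this, sum_sub_distrib, ← sum_mul, h5, one_mul]
    have e2 : ∑ j ∈ range (2 * m), s i * ((c (a j) - c (a i)) * (e (a j) * l (a i) (a j))) =
        ∑ j ∈ range (2 * m), (c (a j) - c (a i)) * alt τ j * (if j < i then α' else α) := by
      refine sum_congr rfl fun j hj => ?_
      have hj' := mem_range.1 hj
      rw [hv j hj']
      rcases lt_trichotomy j i with hlt | heq | hgt
      · rw [if_pos hlt, ← (h4 j i hlt hi).2]
        ring
      · rw [heq]
        ring
      · rw [if_neg (by omega), ← (h4 i j hgt hj').1]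
        ring
    rw [e1, e2] at h'
    exact h'
  -- partial sums
  set X : ℕ → ZMod 3 := fun i => ∑ j ∈ range i, c (a j) * alt τ j with hX
  have hV : ∑ j ∈ range (2 * m), alt τ j = 0 := by
    rw [alt_sum, if_pos (even_two_mul m)]
  have F : ∀ i ≤ 2 * m,
      ∑ j ∈ range (2 * m), (c (a j) - c (a i)) * alt τ j * (if j < i then α' else α) =
      α * X (2 * m) + (α' - α) * (X i - c (a i) * ∑ j ∈ range i, alt τ j) := by
    intro i hi
    have e1 : ∑ j ∈ range (2 * m), (c (a j) - c (a i)) * alt τ j * (if j < i then α' else α) =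
        ∑ j ∈ range (2 * m), (α * (c (a j) * alt τ j) - α * c (a i) * alt τ j) +
        ∑ j ∈ range (2 * m), (if j < i then (α' - α) * (c (a j) * alt τ j - c (a i) * alt τ j)
          else 0) := by
      rw [← sum_add_distrib]
      refine sum_congr rfl fun j _ => ?_
      split_ifs <;> ring
    rw [e1, sum_sub_distrib, ← mul_sum, ← mul_sum, hV, mul_zero, sub_zero, ← sum_filter]
    have e2 : (range (2 * m)).filter (fun j => j < i) = range i := by
      ext j
      simp only [mem_filter, mem_range]
      omega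
    rw [e2, ← mul_sum, sum_sub_distrib, ← mul_sum]
  have step : ∀ i, i + 1 < 2 * m → c (a i) = c (a (i + 1)) := by
    intro i hi
    have h1 := E i (by omega)
    have h1' := E (i + 1) hi
    rw [F i (by omega)] at h1
    rw [F (i + 1) (by omega)] at h1'
    have hX1 : X (i + 1) = X i + c (a i) * alt τ i := sum_range_succ _ _
    have hV1 : ∑ j ∈ range (i + 1), alt τ j = ∑ j ∈ range i, alt τ j + alt τ i :=
      sum_range_succ _ _
    have key : (c (a i) - c (a (i + 1))) * (1 - (α - α') * ∑ j ∈ range (i + 1), alt τ j) = 0 := by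
      have h3 : (c (a i) - c (a (i + 1))) * (1 - (α - α') * ∑ j ∈ range (i + 1), alt τ j) =
          (g - c (a (i + 1)) + (α * X (2 * m) + (α' - α) * (X (i + 1) - c (a (i + 1)) *
            ∑ j ∈ range (i + 1), alt τ j))) -
          (g - c (a i) + (α * X (2 * m) + (α' - α) * (X i - c (a i) *
            ∑ j ∈ range i, alt τ j))) := by
        rw [hX1, hV1]
        ring
      rw [h3, h1, h1', sub_zero]
    rcases mul_eq_zero.1 key with h | h
    · exact sub_eq_zero.1 h
    · exfalso
      rw [alt_sum] at h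
      split_ifs at h
      · rw [mul_zero, sub_zero] at h
        exact one_ne_zero h
      · exact h6 (sub_eq_zero.1 h).symm
  have hconst : ∀ i < 2 * m, c (a i) = c (a 0) := by
    intro i
    induction i with
    | zero => intro _; rfl
    | succ i ih => intro hi; rw [← step i hi, ih (by omega)]
  -- the old system
  have hold : ∀ p ∈ P, ρ p → e p ≠ 0 → ∑ q ∈ P, (c q - c p) * (e q * l p q) = 0 := by
    intro p hp hρp hep
    have h := hc p (mem_union_left _ hp) hρp hep
    rw [hsplit] at h
    have e1 : ∑ j ∈ range (2 * m), (c (a j) - c p) * (e (a j) * l p (a j)) = 0 := by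
      have : ∑ j ∈ range (2 * m), (c (a j) - c p) * (e (a j) * l p (a j)) =
          ∑ j ∈ range (2 * m), (c (a 0) - c p) * β p * alt τ j := by
        refine sum_congr rfl fun j hj => ?_
        have hj' := mem_range.1 hj
        rw [hconst j hj', hv j hj', h2 p hp hρp j hj']
        ring
      rw [this, ← mul_sum, hV, mul_zero]
    rw [e1, add_zero] at h
    exact h
  have hcP := hP c hold
  obtain ⟨d₀, hd₀, hed₀⟩ : ∃ d ∈ P, e d ≠ 0 := by
    by_contra hcon
    push Not at hcon
    rw [sum_eq_zero fun d hd => by rw [hcon d hd, zero_mul]] at h5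
    exact zero_ne_one h5
  have hgc : g = c d₀ := by
    rw [hg]
    have : ∑ d ∈ P, e d * γ d * c d = ∑ d ∈ P, e d * γ d * c d₀ := by
      refine sum_congr rfl fun d hd => ?_
      by_cases h : e d = 0
      · rw [h, zero_mul, zero_mul, zero_mul]
      · rw [hcP d hd d₀ hd₀ h hed₀]
    rw [this, ← sum_mul, h5, one_mul]
  have hall : ∀ i < 2 * m, c (a i) = c d₀ := by
    intro i hi
    have h0 := E 0 (by omega)
    rw [F 0 (by omega)] at h0
    have hX0 : X (2 * m) = 0 := by
      rw [hX]
      have : ∑ j ∈ range (2 * m), c (a j) * alt τ j = ∑ j ∈ range (2 * m), c (a 0) * alt τ j :=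
        sum_congr rfl fun j hj => by rw [hconst j (mem_range.1 hj)]
      show ∑ j ∈ range (2 * m), c (a j) * alt τ j = 0
      rw [this, ← mul_sum, hV, mul_zero]
    have hX00 : X 0 = 0 := by
      show ∑ j ∈ range 0, c (a j) * alt τ j = 0
      rw [range_zero, sum_empty]
    rw [hX0, hX00, range_zero, sum_empty, mul_zero, mul_zero, sub_zero, mul_zero, add_zero,
      add_zero, hgc] at h0
    rw [hconst i hi]
    exact (sub_eq_zero.1 h0).symm
  have hfin : ∀ p ∈ P ∪ (range (2 * m)).image a, e p ≠ 0 → c p = c d₀ := by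
    intro p hp hep
    rcases mem_union.1 hp with hp | hp
    · exact hcP p hp d₀ hd₀ hep hed₀
    · obtain ⟨i, hi, rfl⟩ := mem_image.1 hp
      exact hall i (mem_range.1 hi)
  intro p hp q hq hep heq
  rw [hfin p hp hep, hfin q hq heq]

/-- a suitable sign -/
theorem exists_sign (ε : ZMod 3) : ∃ τ : ZMod 3, τ ≠ 0 ∧ ε * τ ≠ 1 := by
  revert ε
  decide

end Pool.Agent.U880.CTA
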