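import Pool.Agent.H330.Ramsey

/-!
Ramsey's theorem for functions of the pairs `p < r` of natural numbers with finitely many values;
double counting. (`ramsey_multi` and `count` are the arguments of helper693, `Pool/Agent/U693/X49`.)
-/

set_option autoImplicit false
set_option linter.all false

open scoped Classical

namespace Pool.Agent.U880.CTA

open Finset

/-- Ramsey, with target sizes `r` (after helper693) -/
theorem ramsey_multi {V F : Type} [DecidableEq V] [Fintype F] (hF : 2 ≤ Fintype.card F)
    (s : V → V → F) :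
    ∀ (n : ℕ) (r : F → ℕ), ∑ a, r a ≤ n → ∀ S : Finset V, Fintype.card F ^ n ≤ S.card →
      (∀ p ∈ S, ∀ q ∈ S, s p q = s q p) →
      ∃ a : F, ∃ T ⊆ S, T.card = r a ∧ ∀ p ∈ T, ∀ q ∈ T, p ≠ q → s p q = a := by
  intro n
  induction n with
  | zero =>
    intro r hr S _ _
    obtain ⟨a⟩ : Nonempty F := Fintype.card_pos_iff.1 (by omega)
    have h0 : r a = 0 := by
      have := single_le_sum (fun b _ => Nat.zero_le (r b)) (mem_univ a)
      omega
    exact ⟨a, ∅, empty_subset _, by rw [card_empty, h0], fun p hp => absurd hp (notMem_empty p)⟩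
  | succ n ih =>
    intro r hr S hS hsy
    by_cases h0 : ∃ a, r a = 0
    · obtain ⟨a, ha⟩ := h0
      exact ⟨a, ∅, empty_subset _, by rw [card_empty, ha], fun p hp => absurd hp (notMem_empty p)⟩
    push Not at h0
    have hc : 1 ≤ Fintype.card F ^ n := Nat.one_le_pow _ _ (by omega)
    have hS1 : 1 ≤ S.card := by
      refine le_trans ?_ hS
      exact Nat.one_le_pow _ _ (by omega)
    obtain ⟨v, hv⟩ := card_pos.1 hS1
    have h1 : ∃ a ∈ (univ : Finset F),
        Fintype.card F ^ n ≤ ((S.erase v).filter fun u => s v u = a).card := by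
      by_contra hcon
      push Not at hcon
      have h2 : (S.erase v).card = ∑ a : F, ((S.erase v).filter fun u => s v u = a).card :=
        card_eq_sum_card_fiberwise fun _ _ => mem_univ _
      have h3 : ∑ a : F, (((S.erase v).filter fun u => s v u = a).card + 1) ≤
          ∑ _a : F, Fintype.card F ^ n := sum_le_sum fun a _ => hcon a (mem_univ a)
      rw [sum_add_distrib, ← h2, card_erase_of_mem hv, sum_const, sum_const, card_univ, smul_eq_mul,
        smul_eq_mul, mul_one] at h3
      rw [pow_succ] at hS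
      have h4 : Fintype.card F ^ n * Fintype.card F = Fintype.card F * Fintype.card F ^ n :=
        mul_comm _ _
      omega
    obtain ⟨a, -, ha⟩ := h1
    set S' := (S.erase v).filter fun u => s v u = a with hS'
    have hsub : S' ⊆ S := (filter_subset _ _).trans (erase_subset _ _)
    have hr' : ∑ b, (Function.update r a (r a - 1)) b ≤ n := by
      have h2 : ∑ b, (Function.update r a (r a - 1)) b + 1 = ∑ b, r b := by
        rw [← sum_erase_add _ _ (mem_univ a), ← sum_erase_add univ r (mem_univ a)]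
        have h3 : ∑ b ∈ univ.erase a, (Function.update r a (r a - 1)) b = ∑ b ∈ univ.erase a, r b :=
          sum_congr rfl fun b hb => Function.update_of_ne (ne_of_mem_erase hb) _ _
        rw [h3, Function.update_self]
        have := h0 a
        omega
      omega
    obtain ⟨b, T, hT, hTc, hTp⟩ := ih _ hr' S' ha fun p hp q hq => hsy p (hsub hp) q (hsub hq)
    by_cases hb : b = a
    · subst hb
      rw [Function.update_self] at hTc
      have hvT : v ∉ T := fun h' => by
        have := hT h'
        rw [hS', mem_filter, mem_erase] at this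
        exact this.1.1 rfl
      have hvs : ∀ u ∈ T, s v u = b := fun u hu => by
        have := hT hu
        rw [hS', mem_filter] at this
        exact this.2
      refine ⟨b, insert v T, insert_subset hv (hT.trans hsub), ?_, ?_⟩
      · rw [card_insert_of_notMem hvT, hTc]
        have := h0 b
        omega
      · intro p hp q hq hpq
        rcases mem_insert.1 hp with hp' | hp' <;> rcases mem_insert.1 hq with hq' | hq'
        · exact absurd (hp'.trans hq'.symm) hpq
        · rw [hp']
          exact hvs q hq'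
        · rw [hq', hsy p (hsub (hT hp')) v hv]
          exact hvs p hp'
        · exact hTp p hp' q hq' hpq
    · rw [Function.update_of_ne hb] at hTc
      exact ⟨b, T, hT.trans hsub, hTc, hTp⟩

/-- double counting (after helper693) -/
theorem count (S : Finset ℕ) (k N : ℕ) (Q : Finset ℕ → Prop) (hkN : k ≤ N) (hN : N ≤ S.card)
    (h : ∀ B ⊆ S, B.card = N → ∃ A ⊆ B, A.card = k ∧ Q A) :
    S.card.choose k ≤ N.choose k * ((S.powersetCard k).filter Q).card := by
  set n := S.card with hn
  have h1 : (S.powersetCard N).card ≤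
      ((S.powersetCard k).filter Q).card * (n - k).choose (N - k) := by
    have h2 : ∑ B ∈ S.powersetCard N, 1 ≤ ∑ B ∈ S.powersetCard N,
        (((S.powersetCard k).filter Q).filter fun A => A ⊆ B).card := by
      refine sum_le_sum fun B hB => ?_
      obtain ⟨hB1, hB2⟩ := mem_powersetCard.1 hB
      obtain ⟨A, hA, hAk, hQ⟩ := h B hB1 hB2
      refine card_pos.2 ⟨A, ?_⟩
      rw [mem_filter, mem_filter, mem_powersetCard]
      exact ⟨⟨⟨hA.trans hB1, hAk⟩, hQ⟩, hA⟩
    rw [sum_const, smul_eq_mul, mul_one] at h2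
    refine h2.trans ?_
    have h3 : ∑ B ∈ S.powersetCard N,
        (((S.powersetCard k).filter Q).filter fun A => A ⊆ B).card =
        ∑ A ∈ (S.powersetCard k).filter Q, ((S.powersetCard N).filter fun B => A ⊆ B).card := by
      simp only [card_filter]
      rw [sum_comm]
    rw [h3, ← smul_eq_mul, ← sum_const]
    refine sum_le_sum fun A hA => ?_
    obtain ⟨hA1, -⟩ := mem_filter.1 hA
    obtain ⟨hA2, hA3⟩ := mem_powersetCard.1 hA1
    have h4 : ((S.powersetCard N).filter fun B => A ⊆ B).card ≤
        ((S \ A).powersetCard (N - k)).card := by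
      refine card_le_card_of_injOn (fun B => B \ A) ?_ ?_
      · intro B hB
        obtain ⟨hB1, hB2⟩ := mem_filter.1 hB
        obtain ⟨hB3, hB4⟩ := mem_powersetCard.1 hB1
        refine mem_coe.2 (mem_powersetCard.2 ⟨sdiff_subset_sdiff hB3 subset_rfl, ?_⟩)
        rw [card_sdiff_of_subset hB2, hB4, hA3]
      · intro B hB B' hB' he
        have e1 := (mem_filter.1 (mem_coe.1 hB)).2
        have e2 := (mem_filter.1 (mem_coe.1 hB')).2
        have he' : B \ A = B' \ A := he
        rw [← sdiff_union_of_subset e1, ← sdiff_union_of_subset e2, he']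
    refine h4.trans ?_
    rw [card_powersetCard, card_sdiff_of_subset hA2, hA3]
  rw [card_powersetCard] at h1
  have h5 : n.choose N * N.choose k = n.choose k * (n - k).choose (N - k) :=
    Nat.choose_mul hkN
  have h6 : 0 < (n - k).choose (N - k) := Nat.choose_pos (by omega)
  have h7 : n.choose k * (n - k).choose (N - k) ≤
      (N.choose k * ((S.powersetCard k).filter Q).card) * (n - k).choose (N - k) := by
    rw [← h5]
    calc n.choose N * N.choose k ≤
        (((S.powersetCard k).filter Q).card * (n - k).choose (N - k)) * N.choose k :=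
          Nat.mul_le_mul_right _ h1
      _ = _ := by ring
  exact Nat.le_of_mul_le_mul_right h7 h6

/-- the finite theorem -/
theorem ram_fin {C F : Type} [Fintype C] [Nonempty C] [Fintype F] (hF : 2 ≤ Fintype.card F)
    (κ : ℕ → C) (f : ℕ → ℕ → F) (S : Finset ℕ) (k : ℕ)
    (hS : Fintype.card C * Fintype.card F ^ (Fintype.card F * k) ≤ S.card) :
    ∃ A ⊆ S, A.card = k ∧ (∃ x, ∀ p ∈ A, κ p = x) ∧
      ∃ y, ∀ p ∈ A, ∀ r ∈ A, p < r → f p r = y := by
  have h1 : ∃ y ∈ (univ : Finset C),
      Fintype.card F ^ (Fintype.card F * k) ≤ (S.filter fun q => κ q = y).card := by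
    refine exists_le_card_fiber_of_mul_le_card_of_maps_to (fun q _ => mem_univ _)
      ⟨Classical.arbitrary C, mem_univ _⟩ ?_
    rw [card_univ]
    exact hS
  obtain ⟨x, -, hx⟩ := h1
  obtain ⟨a, A, hA, hAk, hAp⟩ := ramsey_multi hF (fun p q => if p < q then f p q else f q p)
    (Fintype.card F * k) (fun _ => k) (by rw [sum_const, card_univ, smul_eq_mul])
    (S.filter fun q => κ q = x) hx (by
      intro p _ q _
      rcases lt_trichotomy p q with h | h | h
      · simp only [if_pos h, if_neg (not_lt.2 h.le)]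
      · rw [h]
      · simp only [if_pos h, if_neg (not_lt.2 h.le)])
  refine ⟨A, hA.trans (filter_subset _ _), hAk, ⟨x, fun p hp => (mem_filter.1 (hA hp)).2⟩, a,
    fun p hp r hr hpr => ?_⟩
  have := hAp p hp r hr hpr.ne
  simp only [if_pos hpr] at this
  exact this

/-- the infinite theorem -/
theorem ram_inf {C F : Type} [Finite C] [Finite F] (κ : ℕ → C) (f : ℕ → ℕ → F) (S : Set ℕ)
    (hS : S.Infinite) :
    ∃ T ⊆ S, T.Infinite ∧ (∃ x, ∀ p ∈ T, κ p = x) ∧ ∃ y, ∀ p ∈ T, ∀ r ∈ T, p < r → f p r = y := by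
  have : Infinite S := hS.to_subtype
  obtain ⟨x, hx⟩ := Finite.exists_infinite_fiber (fun p : S => κ p)
  have hinf : Infinite ((fun p : S => κ p) ⁻¹' {x}) := hx
  obtain ⟨H, c, hH, h⟩ := Pool.Agent.H330.infinite_ramsey 2
    (fun w : Finset ((fun p : S => κ p) ⁻¹' {x}) =>
      {y : F | ∃ p ∈ w, ∃ r ∈ w, ((p : S) : ℕ) < ((r : S) : ℕ) ∧ y = f ((p : S) : ℕ) ((r : S) : ℕ)})
  have hinj : Function.Injective (fun z : ((fun p : S => κ p) ⁻¹' {x}) => ((z : S) : ℕ)) := by
    intro a b hab
    exact Subtype.ext (Subtype.ext hab)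
  have key : ∀ p ∈ H, ∀ r ∈ H, ((p : S) : ℕ) < ((r : S) : ℕ) → c = {f ((p : S) : ℕ) ((r : S) : ℕ)} := by
    intro p hp r hr hpr
    have hne : p ≠ r := by
      rintro rfl
      exact lt_irrefl _ hpr
    rw [← h {p, r} (card_pair hne) (by
      intro z hz
      rcases mem_insert.1 (mem_coe.1 hz) with rfl | hz'
      · exact hp
      · rw [mem_singleton.1 hz']
        exact hr)]
    ext y
    simp only [Set.mem_setOf_eq, Set.mem_singleton_iff]
    constructor
    · rintro ⟨p', hp', r', hr', hlt, rfl⟩
      rcases mem_insert.1 hp' with rfl | hp'' <;> rcases mem_insert.1 hr' with rfl | hr''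
      · exact absurd hlt (lt_irrefl _)
      · rw [mem_singleton.1 hr'']
      · rw [mem_singleton.1 hp''] at hlt
        exact absurd hlt (not_lt.2 hpr.le)
      · rw [mem_singleton.1 hp'', mem_singleton.1 hr''] at hlt
        exact absurd hlt (lt_irrefl _)
    · rintro rfl
      exact ⟨p, mem_insert_self _ _, r, mem_insert_of_mem (mem_singleton_self _), hpr, rfl⟩
  refine ⟨(fun z : ((fun p : S => κ p) ⁻¹' {x}) => ((z : S) : ℕ)) '' H, ?_,
    hH.image hinj.injOn, ⟨x, ?_⟩, ?_⟩
  · rintro _ ⟨z, -, rfl⟩
    exact z.1.2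
  · rintro _ ⟨z, -, rfl⟩
    exact z.2
  · have hinf2 : ((fun z : ((fun p : S => κ p) ⁻¹' {x}) => ((z : S) : ℕ)) '' H).Infinite :=
      hH.image hinj.injOn
    obtain ⟨_, ⟨p₀, hp₀, rfl⟩⟩ := hinf2.nonempty
    obtain ⟨_, ⟨r₀, hr₀, rfl⟩, hlt⟩ := hinf2.exists_gt ((p₀ : S) : ℕ)
    refine ⟨f ((p₀ : S) : ℕ) ((r₀ : S) : ℕ), ?_⟩
    rintro _ ⟨p, hp, rfl⟩ _ ⟨r, hr, rfl⟩ hpr
    have e1 := key p hp r hr hpr
    have e2 := key p₀ hp₀ r₀ hr₀ hlt
    exact Set.singleton_injective (e1.symm.trans e2)

end Pool.Agent.U880.CTA
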