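import Pool.Agent.Q283.Q3.Natq
import Pool.Agent.U880.CTA.Lin
import Pool.Agent.U880.CTA.Ram

/-!
The numbers `D ∏ p ^ x p`.
-/

set_option autoImplicit false
set_option linter.all false
set_option maxHeartbeats 1000000

open scoped Classical

namespace Pool.Agent.U880.CTA

open Finset
open Pool.Agent.Y703.CX (lam LamP)
open Pool.Agent.Y703.CT (Cls NoSplit Base)
open Q283.Q3N (Gx fe fe_ne gx_of_nosplit nosplit_of_gx lam_prodp cls_mul Adm)

theorem LP : LamP := Pool.Agent.Y333.CX.t_LAM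

/-- the rows -/
def rho (p : ℕ) : Prop := p % 3 = 1

theorem gx_iff (T : Finset ℕ) (e : ℕ → ZMod 3) : Gx T e ↔ GX lam rho e T := Iff.rfl

theorem gX_congr {l : ℕ → ℕ → ZMod 3} {ρ : ℕ → Prop} {T : Finset ℕ} {e e' : ℕ → ZMod 3}
    (h : ∀ p ∈ T, e p = e' p) (hT : GX l ρ e T) : GX l ρ e' T := by
  intro c hc p hp q hq h1 h2
  refine hT c (fun p hp hρ he => ?_) p hp q hq (by rwa [h p hp]) (by rwa [h q hq])
  rw [← hc p hp hρ (by rwa [← h p hp])]
  exact sum_congr rfl fun q hq => by rw [h q hq]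

theorem fac_prod {A : Finset ℕ} (hA : ∀ p ∈ A, p.Prime) (x : ℕ → ℕ) (q : ℕ) :
    (∏ p ∈ A, p ^ x p).factorization q = if q ∈ A then x q else 0 := by
  rw [Nat.factorization_prod fun p hp => pow_ne_zero _ (hA p hp).ne_zero]
  rw [Finsupp.finset_sum_apply]
  have : ∀ p ∈ A, (p ^ x p).factorization q = if q = p then x q else 0 := by
    intro p hp
    rw [(hA p hp).factorization_pow, Finsupp.single_apply]
    by_cases h : p = q
    · rw [if_pos h, if_pos h.symm, h]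
    · rw [if_neg h, if_neg (fun h' => h h'.symm)]
  rw [sum_congr rfl this, sum_ite_eq]

/-- the number `D ∏ p ^ x p` -/
def NN (D : ℕ) (A : Finset ℕ) (x : ℕ → ℕ) : ℕ := D * ∏ p ∈ A, p ^ x p

/-- the conditions on `A` and `x` -/
structure Ok (D : ℕ) (A : Finset ℕ) (x : ℕ → ℕ) : Prop where
  prime : ∀ p ∈ A, p.Prime
  one : ∀ p ∈ A, p % 3 = 1
  ndvd : ∀ p ∈ A, ¬ p ∣ D
  ex : ∀ p ∈ A, x p = 1 ∨ x p = 2

section

variable {D : ℕ} {A : Finset ℕ} {x : ℕ → ℕ}

theorem prod_ne (h : Ok D A x) : ∏ p ∈ A, p ^ x p ≠ 0 :=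
  prod_ne_zero_iff.2 fun p hp => pow_ne_zero _ (h.prime p hp).ne_zero

theorem x_ne (h : Ok D A x) {p : ℕ} (hp : p ∈ A) : x p ≠ 0 := by
  rcases h.ex p hp with h | h <;> omega

theorem mem_of_dvd (h : Ok D A x) {p : ℕ} (hp : p.Prime) (hd : p ∣ ∏ q ∈ A, q ^ x q) : p ∈ A := by
  obtain ⟨q, hq, hpq⟩ := (hp.prime.dvd_finsetProd_iff _).1 hd
  have := (Nat.prime_dvd_prime_iff_eq hp (h.prime q hq)).1 (hp.dvd_of_dvd_pow hpq)
  rw [this]
  exact hq

theorem cop (h : Ok D A x) (hD : D ≠ 0) : D.Coprime (∏ p ∈ A, p ^ x p) := by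
  rw [Nat.coprime_prod_right_iff]
  intro p hp
  refine Nat.Coprime.pow_right _ ?_
  exact ((Nat.Prime.coprime_iff_not_dvd (h.prime p hp)).2 (h.ndvd p hp)).symm

theorem adm (h : Ok D A x) (h9 : (∏ p ∈ A, p ^ x p) % 9 = 1) : Adm (∏ p ∈ A, p ^ x p) := by
  refine ⟨h9, fun p hp hd => ?_⟩
  have hpA := mem_of_dvd h hp hd
  refine ⟨h.one p hpA, fun h3 => ?_⟩
  have h4 := (Nat.Prime.pow_dvd_iff_le_factorization hp (prod_ne h)).1 h3
  rw [fac_prod h.prime, if_pos hpA] at h4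
  rcases h.ex p hpA with h | h <;> omega

theorem pf_NN (h : Ok D A x) (hD : D ≠ 0) : (NN D A x).primeFactors = D.primeFactors ∪ A := by
  unfold NN
  rw [Nat.primeFactors_mul hD (prod_ne h)]
  congr 1
  ext p
  constructor
  · intro hp
    exact mem_of_dvd h (Nat.prime_of_mem_primeFactors hp) (Nat.dvd_of_mem_primeFactors hp)
  · intro hp
    exact Nat.mem_primeFactors.2 ⟨h.prime p hp, (dvd_pow_self p (x_ne h hp)).trans
      (dvd_prod_of_mem (fun p => p ^ x p) hp), prod_ne h⟩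

theorem fe_NN (h : Ok D A x) (hD : D ≠ 0) (p : ℕ) :
    fe (NN D A x) p = fe D p + (if p ∈ A then (x p : ZMod 3) else 0) := by
  unfold fe NN
  rw [Nat.factorization_mul hD (prod_ne h), Finsupp.add_apply, fac_prod h.prime]
  split_ifs <;> push_cast <;> ring

theorem fe_D (h : Ok D A x) {p : ℕ} (hp : p ∈ A) : fe D p = 0 := by
  unfold fe
  rw [Nat.factorization_eq_zero_of_not_dvd (h.ndvd p hp), Nat.cast_zero]

theorem lam_D {p : ℕ} (hD : D ≠ 0) (hp : p.Prime) (h1 : p % 3 = 1) (hd : ¬ p ∣ D) :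
    lam p D = ∑ d ∈ D.primeFactors, fe D d * lam p d := by
  have h := (lam_prodp LP hp h1 D.factorization D.primeFactors
    (fun q hq => Nat.prime_of_mem_primeFactors hq)
    (fun h => hd (Nat.dvd_of_mem_primeFactors h))).2
  have e : ∏ q ∈ D.primeFactors, q ^ D.factorization q = D := Nat.prod_factorization_pow_eq_self hD
  rw [e] at h
  exact h

theorem lam_M (h : Ok D A x) {d : ℕ} (hd : d.Prime) (h1 : d % 3 = 1) (hdA : d ∉ A) :
    lam d (∏ p ∈ A, p ^ x p) = ∑ p ∈ A, (x p : ZMod 3) * lam d p :=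
  (lam_prodp LP hd h1 x A h.prime hdA).2

end

/-- the criterion -/
theorem ns_iff' {N : ℕ} (hC : Cls N) : NoSplit N ↔ Gx N.primeFactors (fe N) := by
  obtain ⟨hb, -, -, q, hq, -, hqN, -⟩ := hC
  exact ⟨gx_of_nosplit LP hb, nosplit_of_gx LP hb ⟨q, Nat.mem_primeFactors.2 ⟨hq, hqN, hb.1⟩⟩⟩

theorem pf_ndvd {D : ℕ} {A : Finset ℕ} {x : ℕ → ℕ} (h : Ok D A x) {d : ℕ}
    (hd : d ∈ D.primeFactors) : d ∉ A := fun h' =>
  h.ndvd d h' (Nat.dvd_of_mem_primeFactors hd)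

/-- homogeneous sets of primes -/
structure Hmg (D : ℕ) (T : Set ℕ) (α α' : ZMod 3) : Prop where
  prime : ∀ p ∈ T, p.Prime
  one : ∀ p ∈ T, p % 3 = 1
  ndvd : ∀ p ∈ T, ¬ p ∣ D
  ne : ∀ p ∈ T, lam p D ≠ 0
  nine : ∀ p ∈ T, ∀ r ∈ T, p % 9 = r % 9
  inn : ∀ d ∈ D.primeFactors, d % 3 = 1 → ∀ p ∈ T, ∀ r ∈ T, lam d p = lam d r
  out : ∀ d ∈ D.primeFactors, ∀ p ∈ T, ∀ r ∈ T, lam p D * lam p d = lam r D * lam r d
  pr : ∀ p ∈ T, ∀ r ∈ T, p < r → lam p D * lam p r = α ∧ lam r D * lam r p = α'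

theorem sq_one : ∀ a : ZMod 3, a ≠ 0 → a * a = 1 := by decide

theorem cube9 : ∀ r : ℕ, r < 9 → r % 3 = 1 → r ^ 3 % 9 = 1 := by decide

theorem pair9 {p r σ : ℕ} (h1 : p % 3 = 1) (h9 : p % 9 = r % 9) (hσ : σ = 1 ∨ σ = 2) :
    (p ^ σ * r ^ (3 - σ)) % 9 = 1 := by
  have e1 : p ^ σ * r ^ (3 - σ) ≡ (p % 9) ^ 3 [MOD 9] := by
    have hp : p ≡ p % 9 [MOD 9] := (Nat.mod_modEq p 9).symm
    have hr : r ≡ p % 9 [MOD 9] := by
      rw [h9]
      exact (Nat.mod_modEq r 9).symm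
    have := (hp.pow σ).mul (hr.pow (3 - σ))
    rw [← pow_add] at this
    have e : σ + (3 - σ) = 3 := by rcases hσ with h | h <;> omega
    rwa [e] at this
  have e2 := cube9 (p % 9) (Nat.mod_lt _ (by norm_num)) (by omega)
  rw [← e2]
  exact e1

/-- the exponents -/
def ex (σ i : ℕ) : ℕ := if Even i then σ else 3 - σ

theorem ex_or {σ : ℕ} (hσ : σ = 1 ∨ σ = 2) (i : ℕ) : ex σ i = 1 ∨ ex σ i = 2 := by
  unfold ex
  rcases hσ with h | h <;> split_ifs <;> omega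

theorem ex_alt {σ : ℕ} (hσ : σ = 1 ∨ σ = 2) (i : ℕ) : ((ex σ i : ℕ) : ZMod 3) = alt (σ : ZMod 3) i := by
  unfold ex alt
  rcases hσ with h | h <;> subst h <;> split_ifs <;> decide

theorem prod_pairs (a : ℕ → ℕ) (σ m : ℕ) :
    ∏ i ∈ range m, (a (2 * i) ^ σ * a (2 * i + 1) ^ (3 - σ)) =
      ∏ j ∈ range (2 * m), a j ^ ex σ j := by
  induction m with
  | zero => simp
  | succ m ih =>
    rw [prod_range_succ, ih, show 2 * (m + 1) = 2 * m + 1 + 1 by ring, prod_range_succ,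
      prod_range_succ]
    have e1 : ex σ (2 * m) = σ := if_pos (even_two_mul m)
    have e2 : ex σ (2 * m + 1) = 3 - σ := if_neg (by
      rw [Nat.even_add_one, not_not]
      exact even_two_mul m)
    rw [e1, e2]
    ring

theorem prod9 {a : ℕ → ℕ} {σ m : ℕ} (hσ : σ = 1 ∨ σ = 2) (h1 : ∀ i < 2 * m, a i % 3 = 1)
    (h9 : ∀ i < 2 * m, ∀ j < 2 * m, a i % 9 = a j % 9) :
    (∏ i ∈ range m, (a (2 * i) ^ σ * a (2 * i + 1) ^ (3 - σ))) % 9 = 1 := by
  induction m with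
  | zero => simp
  | succ m ih =>
    rw [prod_range_succ, Nat.mul_mod, ih (fun i hi => h1 i (by omega))
      (fun i hi j hj => h9 i (by omega) j (by omega)),
      pair9 (h1 (2 * m) (by omega)) (h9 (2 * m) (by omega) (2 * m + 1) (by omega)) hσ]

theorem exists_x {a : ℕ → ℕ} {m : ℕ} (hinj : ∀ i < 2 * m, ∀ j < 2 * m, a i = a j → i = j) (σ : ℕ) :
    ∃ x : ℕ → ℕ, (∀ i < 2 * m, x (a i) = ex σ i) ∧
      ∏ i ∈ range m, (a (2 * i) ^ σ * a (2 * i + 1) ^ (3 - σ)) =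
        ∏ p ∈ (range (2 * m)).image a, p ^ x p := by
  have hinjr : Set.InjOn a (range (2 * m) : Finset ℕ) := fun i hi j hj hij =>
    hinj i (mem_range.1 hi) j (mem_range.1 hj) hij
  obtain ⟨x, hx⟩ : ∃ x : ℕ → ℕ, ∀ i < 2 * m, x (a i) = ex σ i := by
    refine ⟨fun p => if h : ∃ i < 2 * m, a i = p then ex σ h.choose else 1, fun i hi => ?_⟩
    have hex : ∃ j < 2 * m, a j = a i := ⟨i, hi, rfl⟩
    show (if h : ∃ j < 2 * m, a j = a i then ex σ h.choose else 1) = _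
    rw [dif_pos hex]
    rw [hinj _ hex.choose_spec.1 i hi hex.choose_spec.2]
  refine ⟨x, hx, ?_⟩
  rw [prod_pairs, prod_image hinjr]
  exact prod_congr rfl fun j hj => by rw [hx j (mem_range.1 hj)]

/-- **The extension theorem for numbers.** -/
theorem good_ext {D : ℕ} (hC : Cls D) (hN : NoSplit D) {m : ℕ} {a : ℕ → ℕ}
    (hmono : ∀ i j, i < j → j < 2 * m → a i < a j) {α α' : ZMod 3}
    (hT : Hmg D {p | ∃ i < 2 * m, p = a i} α α') {σ : ℕ} (hσ : σ = 1 ∨ σ = 2)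
    (h6 : (α - α') * (σ : ZMod 3) ≠ 1) :
    Cls (D * ∏ i ∈ range m, (a (2 * i) ^ σ * a (2 * i + 1) ^ (3 - σ))) ∧
      NoSplit (D * ∏ i ∈ range m, (a (2 * i) ^ σ * a (2 * i + 1) ^ (3 - σ))) := by
  have hD : D ≠ 0 := hC.1.1
  have hmem : ∀ i < 2 * m, a i ∈ {p | ∃ i < 2 * m, p = a i} := fun i hi => ⟨i, hi, rfl⟩
  have hinj : ∀ i < 2 * m, ∀ j < 2 * m, a i = a j → i = j := by
    intro i hi j hj hij
    rcases lt_trichotomy i j with h | h | h
    · exact absurd hij (hmono i j h hj).ne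
    · exact h
    · exact absurd hij.symm (hmono j i h hi).ne
  have hinjr : Set.InjOn a (range (2 * m) : Finset ℕ) := fun i hi j hj hij =>
    hinj i (mem_range.1 hi) j (mem_range.1 hj) hij
  -- the exponents as a function of the prime
  set A : Finset ℕ := (range (2 * m)).image a with hA
  obtain ⟨x, hx, hprod⟩ := exists_x hinj σ
  have hAm : ∀ p ∈ A, ∃ i < 2 * m, p = a i := by
    intro p hp
    obtain ⟨i, hi, rfl⟩ := mem_image.1 hp
    exact ⟨i, mem_range.1 hi, rfl⟩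
  have hok : Ok D A x := by
    refine ⟨fun p hp => hT.prime p (hAm p hp), fun p hp => hT.one p (hAm p hp),
      fun p hp => hT.ndvd p (hAm p hp), fun p hp => ?_⟩
    obtain ⟨i, hi, rfl⟩ := hAm p hp
    rw [hx i hi]
    exact ex_or hσ i
  have h9 : (∏ p ∈ A, p ^ x p) % 9 = 1 := by
    rw [← hprod]
    exact prod9 hσ (fun i hi => hT.one _ (hmem i hi))
      (fun i hi j hj => hT.nine _ (hmem i hi) _ (hmem j hj))
  have hcls : Cls (D * ∏ p ∈ A, p ^ x p) := cls_mul hC (adm hok h9) (cop hok hD)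
  rw [hprod]
  refine ⟨hcls, ?_⟩
  rw [ns_iff' hcls]
  show Gx (NN D A x).primeFactors (fe (NN D A x))
  rw [pf_NN hok hD, gx_iff, hA]
  have hfeP : ∀ d ∈ D.primeFactors, fe (NN D A x) d = fe D d := by
    intro d hd
    rw [fe_NN hok hD, if_neg (pf_ndvd hok hd), add_zero]
  have hσ0 : (σ : ZMod 3) ≠ 0 := by
    rcases hσ with h | h <;> subst h <;> decide
  rcases Nat.eq_zero_or_pos m with hm0 | hm0
  · subst hm0
    rw [mul_zero, range_zero, image_empty, union_empty]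
    exact gX_congr (fun d hd => (hfeP d hd).symm) ((gx_iff _ _).1 ((ns_iff' hC).1 hN))
  refine ext_alt (m := m) (a := a) (τ := (σ : ZMod 3)) (α := α) (α' := α')
    (β := fun d => lam d (a 0)) (γ := fun d => lam (a 0) D * lam (a 0) d)
    (s := fun i => lam (a i) D) hinj ?_ (fun i hi => hT.one _ (hmem i hi)) hσ0 ?_ ?_ ?_ ?_ ?_ h6 ?_
  · intro i hi h
    exact hT.ndvd _ (hmem i hi) (Nat.dvd_of_mem_primeFactors h)
  · intro i hi
    rw [fe_NN hok hD, fe_D hok (mem_image_of_mem _ (mem_range.2 hi)), zero_add,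
      if_pos (mem_image_of_mem _ (mem_range.2 hi)), hx i hi, ex_alt hσ]
  · intro d hd hd1 i hi
    exact hT.inn d hd hd1 _ (hmem i hi) _ (hmem 0 (by omega))
  · intro d hd i hi
    exact hT.out d hd _ (hmem i hi) _ (hmem 0 (by omega))
  · intro i j hij hj
    exact hT.pr _ (hmem i (by omega)) _ (hmem j hj) (hmono i j hij hj)
  · have h0 := hmem 0 (by omega)
    have e1 : ∑ d ∈ D.primeFactors, fe (NN D A x) d * (lam (a 0) D * lam (a 0) d) =
        lam (a 0) D * ∑ d ∈ D.primeFactors, fe D d * lam (a 0) d := by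
      rw [mul_sum]
      exact sum_congr rfl fun d hd => by rw [hfeP d hd]; ring
    rw [e1, ← lam_D hD (hT.prime _ h0) (hT.one _ h0) (hT.ndvd _ h0)]
    exact sq_one _ (hT.ne _ h0)
  · exact gX_congr (fun d hd => (hfeP d hd).symm) ((gx_iff _ _).1 ((ns_iff' hC).1 hN))

/-- **Sharpness.** -/
theorem split_of {D : ℕ} (hC : Cls D) {A : Finset ℕ} {x : ℕ → ℕ} (h : Ok D A x)
    (hA : A.Nonempty) (hC' : Cls (D * ∏ p ∈ A, p ^ x p)) (h1 : ∀ p ∈ A, lam p D = 0)
    (h2 : ∀ d ∈ D.primeFactors, d % 3 = 1 → lam d (∏ p ∈ A, p ^ x p) = 0) :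
    ¬ NoSplit (D * ∏ p ∈ A, p ^ x p) := by
  have hD : D ≠ 0 := hC.1.1
  intro hns
  rw [ns_iff' hC'] at hns
  have hns' : Gx (NN D A x).primeFactors (fe (NN D A x)) := hns
  rw [pf_NN h hD] at hns'
  have hdisj : Disjoint D.primeFactors A := by
    rw [disjoint_left]
    intro d hd
    exact pf_ndvd h hd
  obtain ⟨q, hq, -, hqD, -⟩ := hC.2.2.2
  have hqP : q ∈ D.primeFactors := Nat.mem_primeFactors.2 ⟨hq, hqD, hD⟩
  obtain ⟨p, hp⟩ := hA
  have hfeP : ∀ d ∈ D.primeFactors, fe (NN D A x) d = fe D d := by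
    intro d hd
    rw [fe_NN h hD, if_neg (pf_ndvd h hd), add_zero]
  have hfeA : ∀ p ∈ A, fe (NN D A x) p = (x p : ZMod 3) := by
    intro p hp
    rw [fe_NN h hD, fe_D h hp, if_pos hp, zero_add]
  have key := hns' (fun y => if y ∈ A then 0 else 1) ?_ q (mem_union_left _ hqP) p
    (mem_union_right _ hp) ?_ ?_
  · simp only [if_pos hp, if_neg (pf_ndvd h hqP)] at key
    exact one_ne_zero key
  · intro r hr hr1 _
    rw [sum_union hdisj]
    by_cases hrA : r ∈ A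
    · have e1 : ∑ y ∈ D.primeFactors, ((if y ∈ A then (0 : ZMod 3) else 1) -
          (if r ∈ A then 0 else 1)) * (fe (NN D A x) y * lam r y) =
          ∑ y ∈ D.primeFactors, fe D y * lam r y := by
        refine sum_congr rfl fun y hy => ?_
        rw [if_neg (pf_ndvd h hy), if_pos hrA, sub_zero, one_mul, hfeP y hy]
      have e2 : ∑ y ∈ A, ((if y ∈ A then (0 : ZMod 3) else 1) -
          (if r ∈ A then 0 else 1)) * (fe (NN D A x) y * lam r y) = 0 := by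
        refine sum_eq_zero fun y hy => ?_
        rw [if_pos hy, if_pos hrA, sub_zero, zero_mul]
      rw [e1, e2, add_zero, ← lam_D hD (h.prime r hrA) (h.one r hrA) (h.ndvd r hrA)]
      exact h1 r hrA
    · have hrP : r ∈ D.primeFactors := (mem_union.1 hr).resolve_right hrA
      have e1 : ∑ y ∈ D.primeFactors, ((if y ∈ A then (0 : ZMod 3) else 1) -
          (if r ∈ A then 0 else 1)) * (fe (NN D A x) y * lam r y) = 0 := by
        refine sum_eq_zero fun y hy => ?_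
        rw [if_neg (pf_ndvd h hy), if_neg hrA, sub_self, zero_mul]
      have e2 : ∑ y ∈ A, ((if y ∈ A then (0 : ZMod 3) else 1) -
          (if r ∈ A then 0 else 1)) * (fe (NN D A x) y * lam r y) =
          -∑ y ∈ A, (x y : ZMod 3) * lam r y := by
        rw [← sum_neg_distrib]
        refine sum_congr rfl fun y hy => ?_
        rw [if_pos hy, if_neg hrA, zero_sub, neg_one_mul, hfeA y hy]
      rw [e1, e2, zero_add, ← lam_M h (Nat.prime_of_mem_primeFactors hrP) hr1 hrA,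
        h2 r hrP hr1, neg_zero]
  · rw [hfeP q hqP]
    exact (fe_ne hC.1).2 hqP
  · rw [hfeA p hp]
    rcases h.ex p hp with h | h <;> rw [h] <;> decide

/-- numbers with one prime divisor -/
theorem noSplit_prime_pow {q k : ℕ} (hC : Cls (q ^ k)) (hq : q.Prime) (hk : k ≠ 0) :
    NoSplit (q ^ k) := by
  rw [ns_iff' hC, Nat.primeFactors_pow q hk, hq.primeFactors]
  intro c _ p hp r hr _ _
  rw [mem_singleton.1 hp, mem_singleton.1 hr]

end Pool.Agent.U880.CTA
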